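import Pool.Agent.Q168.HS4

set_option autoImplicit false
open MeasureTheory Set Filter Topology

namespace Pool.Agent.Results.MP_02a511_an.LeakageBound

open Pool.Agent.Q168.HS

/-- **The Haar shift of an indicator function is not concentrated on the set.**  `IsShift T` says
that `T h_J` is the signed Haar function of the sibling of `J` for every dyadic interval `J`; such a
bounded operator exists, and every such operator satisfies the inequality with `η = 1 - 1/1024`. -/
theorem result :
    (∃ T : L2R →L[ℝ] L2R, IsShift T) ∧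
    ∀ T : L2R →L[ℝ] L2R, IsShift T →
      ∀ (V : Set ℝ) (hV : MeasurableSet V) (hV' : volume V ≠ ⊤),
        (∫ x in V, ((T (indicatorConstLp 2 hV hV' (1 : ℝ)) : L2R) : ℝ → ℝ) x ^ 2
            ≤ (1 - 1 / 1024) * volume.real V) ∧
        (1 / 1024) * volume.real V
            ≤ ∫ x in Vᶜ, ((T (indicatorConstLp 2 hV hV' (1 : ℝ)) : L2R) : ℝ → ℝ) x ^ 2 := by
  refine ⟨exists_shift, fun T hT V hV hV' => ?_⟩
  have h1 := main hV hV' hT
  refine ⟨?_, h1⟩
  have h2 : ∫ x, (T (vL hV hV') : ℝ → ℝ) x ^ 2 = volume.real V := by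
    have e1 : ‖T (vL hV hV')‖ ^ 2 = volume.real V := by
      rw [T_norm hT, ← real_inner_self_eq_norm_sq]
      unfold vL
      rw [L2.real_inner_indicatorConstLp_one_indicatorConstLp_one hV hV hV' hV', inter_self]
    rw [← e1, ← real_inner_self_eq_norm_sq, inner_eq]
    congr 1
    funext x
    ring
  have h3 := integral_add_compl hV (sq_int (T (vL hV hV')))
  rw [h2] at h3
  change ∫ x in V, (T (vL hV hV') : ℝ → ℝ) x ^ 2 ≤ (1 - 1 / 1024) * volume.real V
  linarith

end Pool.Agent.Results.MP_02a511_an.LeakageBound
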